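import Pool.Agent.helper37.NE.SpecB
import Pool.Agent.helper59.FI.Base
import Pool.Agent.helper11.DR.CCJ

/-!
# MP_baa4d7_al, THEOREM NE, row YUL: a unit class goes up from a normal subgroup of index prime to `p`
-/

set_option autoImplicit false

namespace Pool.Agent.NE

open Pool.Agent.helper58.DC Pool.Agent.DI Pool.Agent.GR Pool.Agent.OB Pool.Agent.DR Pool.Agent.FI Pool.Agent.FI3 Pool.Agent.FI4 Pool.Agent.FI4I Pool.Agent.LE Pool.Agent.L5 Pool.Agent.NAB Pool.Agent.ND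

section

variable {G : Type} [Group G]

theorem YUL_T [Finite G] (K K' : Subgroup G) (hK : K' ≤ nz K) (ψ : G → ℂ) (hψ : ψ ∈ IrrOn K) :
    {ψ' : G → ℂ | ∃ n ∈ K', ψ' = funMap (MulAut.conj n) ψ}.Finite := by
  refine (IrrOn_fin K).subset ?_
  rintro ψ' ⟨n, hn, rfl⟩
  have h := IrrOn_funMap hψ n
  rwa [cj_nz.2 (hK hn)] at h

/-- the central character on invariant functions -/
theorem YUL_A [Finite G] (K K' : Subgroup G) (hK : K' ≤ nz K) (φ' ψ : G → ℂ) (hψ : ψ ∈ IrrOn K) (e : ℕ)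
    (ho : OverE K K' φ' ψ e) (h1 : φ' 1 ≠ 0) (F : G → ℂ) (hF : ∀ l ∈ K', ∀ x, F (l * x * l⁻¹) = F x)
    (hF0 : ∀ x, x ∉ K → F x = 0) : cc φ' F = cc ψ F := by
  classical
  have := Fintype.ofFinite G
  set T := (YUL_T K K' hK ψ hψ).toFinset with hT
  have ho' : ∀ x ∈ K, φ' x = e * ∑ ψ' ∈ T, ψ' x := by
    intro x hx
    rw [ho x hx, finsum_mem_eq_finite_toFinset_sum _ (YUL_T K K' hK ψ hψ)]
  have hmem : ∀ ψ' ∈ T, ∃ n ∈ K', ψ' = funMap (MulAut.conj n) ψ := by
    intro ψ' h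
    have h' : ψ' ∈ {ψ' : G → ℂ | ∃ n ∈ K', ψ' = funMap (MulAut.conj n) ψ} := (Set.Finite.mem_toFinset (YUL_T K K' hK ψ hψ)).1 h
    exact h'
  have hψ1 : ψ 1 ≠ 0 := IrrOn_ne hψ
  have hone : ∀ ψ' ∈ T, ψ' 1 = ψ 1 := by
    intro ψ' h
    obtain ⟨n, -, rfl⟩ := hmem ψ' h
    rw [funMap_apply]
    congr 1
    group
  have hcc : ∀ ψ' ∈ T, ∑ x, F x * ψ' x = cc ψ F * ψ 1 := by
    intro ψ' h
    have h2 : cc ψ' F = cc ψ F := by
      obtain ⟨n, hn, rfl⟩ := hmem ψ' h
      rw [cc_funMap]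
      congr 1
      funext x
      exact hF n hn x
    have h3 : cc ψ' F * ψ' 1 = ∑ x, F x * ψ' x := by
      unfold cc
      rw [finsum_eq_sum_of_fintype, div_mul_cancel₀]
      rw [hone ψ' h]
      exact hψ1
    rw [← h3, h2, hone ψ' h]
  have hsum : ∑ x, F x * φ' x = cc ψ F * φ' 1 := by
    have h4 : ∀ x, F x * φ' x = ∑ ψ' ∈ T, (e : ℂ) * (F x * ψ' x) := by
      intro x
      by_cases hx : x ∈ K
      · rw [ho' x hx, Finset.mul_sum, Finset.mul_sum]
        exact Finset.sum_congr rfl fun ψ' _ => by ring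
      · rw [hF0 x hx]
        simp
    rw [Finset.sum_congr rfl fun x _ => h4 x, Finset.sum_comm]
    have h5 : ∀ ψ' ∈ T, ∑ x, (e : ℂ) * (F x * ψ' x) = cc ψ F * (e * ψ' 1) := by
      intro ψ' h
      rw [← Finset.mul_sum, hcc ψ' h, hone ψ' h]
      ring
    rw [Finset.sum_congr rfl h5, ← Finset.mul_sum, ← Finset.mul_sum, ← ho' 1 K.one_mem]
  unfold cc at hsum ⊢
  rw [finsum_eq_sum_of_fintype, hsum]
  field_simp

/-- a constituent is a conjugate -/
theorem YUL_B [Finite G] (K K' : Subgroup G) (hK : K' ≤ nz K) (φ' φ ψ : G → ℂ) (hφ : φ ∈ IrrOn K) (hψ : ψ ∈ IrrOn K) (e : ℕ)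
    (ho : OverE K K' φ' ψ e) (hm : mt K φ' φ ≠ 0) : ∃ n ∈ K', φ = funMap (MulAut.conj n) ψ := by
  classical
  have := Fintype.ofFinite G
  by_contra hcon
  push Not at hcon
  apply hm
  set T := (YUL_T K K' hK ψ hψ).toFinset with hT
  have ho' : ∀ x ∈ K, φ' x = e * ∑ ψ' ∈ T, ψ' x := by
    intro x hx
    rw [ho x hx, finsum_mem_eq_finite_toFinset_sum _ (YUL_T K K' hK ψ hψ)]
  unfold Pool.Agent.FI.mt
  have h0 : ∑ᶠ x ∈ (K : Set G), φ' x * φ x⁻¹ = 0 := by
    rw [finsum_mem_eq_finite_toFinset_sum _ (Set.toFinite (K : Set G))]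
    have h1 : ∀ x ∈ (Set.toFinite (K : Set G)).toFinset, φ' x * φ x⁻¹ = ∑ ψ' ∈ T, (e : ℂ) * (ψ' x * φ x⁻¹) := by
      intro x hx
      rw [Set.Finite.mem_toFinset, SetLike.mem_coe] at hx
      rw [ho' x hx, Finset.mul_sum, Finset.sum_mul]
      exact Finset.sum_congr rfl fun ψ' _ => by ring
    rw [Finset.sum_congr rfl h1, Finset.sum_comm]
    refine Finset.sum_eq_zero fun ψ' h => ?_
    have h' : ψ' ∈ {ψ' : G → ℂ | ∃ n ∈ K', ψ' = funMap (MulAut.conj n) ψ} := (Set.Finite.mem_toFinset (YUL_T K K' hK ψ hψ)).1 h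
    obtain ⟨n, hn, rfl⟩ := h'
    have h2 := IrrOn_funMap hψ n
    rw [cj_nz.2 (hK hn)] at h2
    have h3 := ((B2 B1 G K).2 _ h2).2.2.2.2 φ hφ
    rw [if_neg (fun h => hcon n hn h.symm), finsum_eq_sum_of_fintype] at h3
    rw [← Finset.mul_sum]
    have h4 : ∑ x ∈ (Set.toFinite (K : Set G)).toFinset, funMap (MulAut.conj n) ψ x * φ x⁻¹ =
        ∑ x, funMap (MulAut.conj n) ψ x * φ x⁻¹ := by
      refine Finset.sum_subset (Finset.subset_univ _) fun x _ hx => ?_
      rw [Set.Finite.mem_toFinset, SetLike.mem_coe] at hx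
      rw [IrrOn_zero h2 hx, zero_mul]
    rw [h4, h3, mul_zero]
  rw [h0, zero_div]

theorem YUL_cls (K : Subgroup G) (n : G) (hn : n ∈ nz K) (g : G) :
    funMap (MulAut.conj n) (cls K g) = cls K (n * g * n⁻¹) := by
  funext x
  rw [funMap_apply]
  have hiff : (∃ l ∈ K, l * g * l⁻¹ = n⁻¹ * x * n) ↔ ∃ l ∈ K, l * (n * g * n⁻¹) * l⁻¹ = x := by
    constructor
    · rintro ⟨l, hl, h⟩
      refine ⟨n * l * n⁻¹, (Subgroup.mem_normalizer_iff.1 hn l).1 hl, ?_⟩
      calc n * l * n⁻¹ * (n * g * n⁻¹) * (n * l * n⁻¹)⁻¹ = n * (l * g * l⁻¹) * n⁻¹ := by group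
        _ = x := by rw [h]; group
    · rintro ⟨l, hl, h⟩
      refine ⟨n⁻¹ * l * n, ?_, ?_⟩
      · have := (Subgroup.mem_normalizer_iff.1 ((nz K).inv_mem hn) l).1 hl
        simpa using this
      · calc n⁻¹ * l * n * g * (n⁻¹ * l * n)⁻¹ = n⁻¹ * (l * (n * g * n⁻¹) * l⁻¹) * n := by group
          _ = n⁻¹ * x * n := by rw [h]
  by_cases h : ∃ l ∈ K, l * g * l⁻¹ = n⁻¹ * x * n
  · rw [cls_one h, cls_one (hiff.1 h)]
  · rw [cls_zero h, cls_zero (fun h' => h (hiff.2 h'))]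

/-- the class of `K'` is the sum of the different classes of `K` in it -/
theorem YUL_C [Finite G] (K K' : Subgroup G) (hKK : K ≤ K') (hK : K' ≤ nz K) (g : G)
    (hfin : {f : G → ℂ | ∃ n ∈ K', f = funMap (MulAut.conj n) (cls K g)}.Finite) (x : G) :
    cls K' g x = ∑ f ∈ hfin.toFinset, f x := by
  classical
  have hmem : ∀ f ∈ hfin.toFinset, ∃ n ∈ K', f = cls K (n * g * n⁻¹) := by
    intro f hf
    obtain ⟨n, hn, rfl⟩ := (Set.Finite.mem_toFinset _).1 hf
    exact ⟨n, hn, YUL_cls K n (hK hn) g⟩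
  by_cases h : ∃ l ∈ K', l * g * l⁻¹ = x
  · rw [cls_one h]
    obtain ⟨l, hl, rfl⟩ := h
    rw [Finset.sum_eq_single (cls K (l * g * l⁻¹))]
    · rw [cls_one ⟨1, K.one_mem, by group⟩]
    · intro f hf hne
      obtain ⟨n, hn, rfl⟩ := hmem f hf
      refine cls_zero fun h2 => hne ?_
      exact (cls_congr h2).symm
    · intro hnot
      exfalso
      apply hnot
      rw [Set.Finite.mem_toFinset]
      exact ⟨l, hl, (YUL_cls K l (hK hl) g).symm⟩
  · rw [cls_zero h]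
    symm
    refine Finset.sum_eq_zero fun f hf => ?_
    obtain ⟨n, hn, rfl⟩ := hmem f hf
    refine cls_zero fun h2 => h ?_
    obtain ⟨l, hl, h3⟩ := h2
    refine ⟨l * n, K'.mul_mem (hKK hl) hn, ?_⟩
    rw [← h3]
    group

/-- the centralisers -/
theorem YUL_D [Finite G] (p : ℕ) (hp : p.Prime) (K K' : Subgroup G) (hKK : K ≤ K') (hK : K' ≤ nz K) (k : ℕ) (hk : ¬ p ∣ k)
    (hc : Nat.card K' = Nat.card K * k) (g : G) : pp p (Cz K' g) = pp p (Cz K g) := by
  have hnorm : (K.subgroupOf K').Normal := (Subgroup.normal_subgroupOf_iff_le_normalizer hKK).2 hK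
  have hidx : (K.subgroupOf K').index = k := by
    have h1 := Subgroup.card_mul_index (K.subgroupOf K')
    have h2 : Nat.card (K.subgroupOf K') = Nat.card K := Nat.card_congr (Subgroup.subgroupOfEquivOfLe hKK).toEquiv
    rw [h2, hc] at h1
    exact Nat.eq_of_mul_eq_mul_left Nat.card_pos h1
  have hCz : Cz K g = K ⊓ Cz K' g := by
    ext x
    rw [Subgroup.mem_inf, mem_Cz, mem_Cz]
    constructor
    · rintro ⟨h1, h2⟩
      exact ⟨h1, hKK h1, h2⟩
    · rintro ⟨h1, -, h2⟩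
      exact ⟨h1, h2⟩
  have hle : Cz K g ≤ Cz K' g := by
    rw [hCz]
    exact inf_le_right
  have hle' : Cz K' g ≤ K' := fun x hx => (mem_Cz.1 hx).1
  have hj : (Cz K g).relIndex (Cz K' g) ∣ k := by
    rw [hCz, Subgroup.inf_relIndex_right, ← Subgroup.relIndex_subgroupOf hle', ← hidx]
    exact Subgroup.relIndex_dvd_index_of_normal _ _
  have hcard : Nat.card (Cz K' g) = Nat.card (Cz K g) * (Cz K g).relIndex (Cz K' g) := by
    have h1 := Subgroup.card_mul_index ((Cz K g).subgroupOf (Cz K' g))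
    have h2 : Nat.card ((Cz K g).subgroupOf (Cz K' g)) = Nat.card (Cz K g) := Nat.card_congr (Subgroup.subgroupOfEquivOfLe hle).toEquiv
    rw [h2] at h1
    exact h1.symm
  have : Fact p.Prime := ⟨hp⟩
  have hj0 : (Cz K g).relIndex (Cz K' g) ≠ 0 := by
    intro h
    rw [h, mul_zero] at hcard
    exact Nat.card_pos.ne' hcard
  have hv : padicValNat p (Nat.card (Cz K' g)) = padicValNat p (Nat.card (Cz K g)) := by
    rw [hcard, padicValNat.mul Nat.card_pos.ne' hj0, padicValNat.eq_zero_of_not_dvd (fun h => hk (h.trans hj)), add_zero]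
  unfold pp
  rw [hv]

theorem YUL_fin [Finite G] (K' : Subgroup G) (f₀ : G → ℂ) : {f : G → ℂ | ∃ n ∈ K', f = funMap (MulAut.conj n) f₀}.Finite := by
  have h : {f : G → ℂ | ∃ n ∈ K', f = funMap (MulAut.conj n) f₀} = (fun n : G => funMap (MulAut.conj n) f₀) '' (K' : Set G) := by
    ext f
    constructor
    · rintro ⟨n, hn, rfl⟩
      exact ⟨n, hn, rfl⟩
    · rintro ⟨n, hn, rfl⟩
      exact ⟨n, hn, rfl⟩
  rw [h]
  exact (Set.toFinite _).image _

/-- the number of the classes -/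
theorem YUL_E [Finite G] (p : ℕ) (K K' : Subgroup G) (hKK : K ≤ K') (k : ℕ) (hk : ¬ p ∣ k)
    (hc : Nat.card K' = Nat.card K * k) (g : G) (hfin : {f : G → ℂ | ∃ n ∈ K', f = funMap (MulAut.conj n) (cls K g)}.Finite) :
    ¬ p ∣ hfin.toFinset.card := by
  have h1 := CCJ_card (cls K g) K'
  have h2 : Nat.card {θ : G → ℂ // ∃ n ∈ K', θ = funMap (MulAut.conj n) (cls K g)} = hfin.toFinset.card := by
    rw [← Set.ncard_eq_toFinset_card _ hfin]
    rfl
  have h3 : K ≤ stF K' (cls K g) := by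
    intro l hl
    refine ⟨hKK hl, ?_⟩
    funext x
    rw [funMap_apply]
    have := cls_inv (K.inv_mem hl) g x
    rwa [inv_inv] at this
  obtain ⟨t, ht⟩ := Subgroup.card_dvd_of_le h3
  rw [h2, ht, hc] at h1
  have h4 : hfin.toFinset.card * t = k := by
    have h5 : Nat.card K * (hfin.toFinset.card * t) = Nat.card K * k := by
      rw [← h1]
      ring
    exact Nat.eq_of_mul_eq_mul_left Nat.card_pos h5
  intro h
  exact hk (h4 ▸ h.mul_right t)

end

/-- **Row YUL** -/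
theorem YUL (hCFA : CFA_stmt) : YUL_stmt := by
  intro p e m M hS G _ _ K K' hKK hK hk φ' hφ' φ hφ hm hst z x hu
  obtain ⟨k, hk, hc⟩ := hk
  classical
  have hg : z * x ∈ K := K.mul_mem hu.zm hu.xm
  refine ⟨hu.pe, hu.re, hu.co, hKK hu.zm, hKK hu.xm, hu.od, ?_, ?_⟩
  · intro hin
    obtain ⟨ψ, hψ, c, hc0, ho⟩ := (hCFA G K K' hKK hK).1 φ' hφ'
    obtain ⟨n, hn, hφψ⟩ := YUL_B K K' hK φ' φ ψ hφ hψ c ho hm
    have hF : ∀ l ∈ K', ∀ y, cls K' (z * x) (l * y * l⁻¹) = cls K' (z * x) y := fun l hl y => cls_inv hl _ y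
    have hF0 : ∀ y, y ∉ K → cls K' (z * x) y = 0 := by
      intro y hy
      refine cls_zero fun h => hy ?_
      obtain ⟨l, hl, rfl⟩ := h
      exact (Subgroup.mem_normalizer_iff.1 (hK hl) _).1 hg
    have e1 := YUL_A K K' hK φ' ψ hψ c ho (IrrOn_ne hφ') _ hF hF0
    have e2 : cc φ (cls K' (z * x)) = cc ψ (cls K' (z * x)) := by
      rw [hφψ, cc_funMap]
      congr 1
      funext y
      exact hF n hn y
    rw [e1, ← e2] at hin
    have hfin := YUL_fin K' (cls K (z * x))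
    have hE := YUL_E p K K' hKK k hk hc (z * x) hfin
    have hsum : cc φ (cls K' (z * x)) = ∑ f ∈ hfin.toFinset, cc φ f := by
      have := Fintype.ofFinite G
      unfold cc
      rw [finsum_eq_sum_of_fintype, ← Finset.sum_div]
      congr 1
      rw [Finset.sum_congr rfl fun y _ => by rw [YUL_C K K' hKK hK (z * x) hfin y, Finset.sum_mul], Finset.sum_comm]
      exact Finset.sum_congr rfl fun f _ => (finsum_eq_sum_of_fintype _).symm
    have hdiff : ∀ f ∈ hfin.toFinset, InM M (cc φ f - cc φ (cls K (z * x))) := by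
      intro f hf
      obtain ⟨n, hn, rfl⟩ := (Set.Finite.mem_toFinset _).1 hf
      have h1 : cc φ (funMap (MulAut.conj n) (cls K (z * x))) = cc (cjF n⁻¹ φ) (cls K (z * x)) := by
        rw [cc_funMap]
        congr 1
        funext y
        rw [funMap_apply, inv_inv]
      rw [h1]
      exact InM.of_mcong hS (hst n⁻¹ (K'.inv_mem hn) (cls K (z * x)) (cls_CF hg) (cls_int K _))
    have htot : InM M (∑ f ∈ hfin.toFinset, (cc φ f - cc φ (cls K (z * x)))) := InM.sum hS _ hdiff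
    rw [Finset.sum_sub_distrib, ← hsum, Finset.sum_const, nsmul_eq_mul] at htot
    have h2 : InM M ((hfin.toFinset.card : ℂ) * cc φ (cls K (z * x))) := by
      have := InM.sub hS hin htot
      have e3 : cc φ (cls K' (z * x)) - (cc φ (cls K' (z * x)) - (hfin.toFinset.card : ℂ) * cc φ (cls K (z * x))) =
          (hfin.toFinset.card : ℂ) * cc φ (cls K (z * x)) := by ring
      rwa [e3] at this
    rcases InM.or hS (IntAt.natCast hS _) (IntAt.of_isIntegral hS (cc_cls_int le_rfl hφ _)) h2 with h | h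
    · exact hE ((InM.natCast hS _).1 h)
    · exact hu.ne h
  · rw [YUL_D p hS.pr K K' hKK hK k hk hc (z * x)]
    exact hu.cd

end Pool.Agent.NE
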